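import Pool.Agent.TH99.FinOrb

/-!
# Finite orbits in the horofunction boundary of virtually abelian groups, for all generating sets
-/

set_option autoImplicit false

open Filter Topology

namespace Pool.Agent.Results.MP_3614fc_al.VirtuallyAbelian

open Pool.Agent.H357R3.HoroInv Pool.Agent.Horo Pool.Agent.TH99.FinOrb

/-- For every infinite finitely generated virtually abelian group `G` and every finite symmetric
generating set `S`, some horofunction of the word metric of `S` has a finite orbit. -/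
theorem result :
    ∀ (G : Type) [Group G], Infinite G →
      (∃ H : Subgroup G, H.FiniteIndex ∧ ∀ a ∈ H, ∀ b ∈ H, a * b = b * a) →
      ∀ S : Finset G, (∀ s ∈ S, s⁻¹ ∈ S) → Subgroup.closure (S : Set G) = ⊤ →
        ∃ f : G → ℝ,
          (∃ x : ℕ → G,
            Tendsto (fun n : ℕ => ((sInf {m : ℕ | ∃ l : List G, l.length = m ∧
                (∀ s ∈ l, s ∈ S) ∧ l.prod = (x n)⁻¹} : ℕ) : ℝ)) atTop atTop ∧
            ∀ y : G, Tendsto (fun n : ℕ =>
                ((sInf {m : ℕ | ∃ l : List G, l.length = m ∧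
                  (∀ s ∈ l, s ∈ S) ∧ l.prod = (x n)⁻¹ * y} : ℕ) : ℝ) -
                ((sInf {m : ℕ | ∃ l : List G, l.length = m ∧
                  (∀ s ∈ l, s ∈ S) ∧ l.prod = (x n)⁻¹} : ℕ) : ℝ))
              atTop (nhds (f y))) ∧
          (Set.range (fun g : G => fun y : G => f (g⁻¹ * y) - f g⁻¹)).Finite := by
  intro G _ hinf ⟨A, hA, hcomm⟩ S hs hS
  classical
  have hL := lenFun hs hS
  have hcount0 := Pool.Agent.H205R3.Horo.countable_closure A hA hcomm S hS
  rw [ran_mf hs hS (d := fun z x => len S (z⁻¹ * x)) (fun z x => rfl)] at hcount0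
  have hcount := (transfer (S := S) (d := fun z x => len S (z⁻¹ * x)) (fun z x => rfl)).1
    (hcount0.mono Set.sdiff_subset)
  have ham : Pool.Agent.PackIndex.IsAmenable G := by
    by_contra h
    exact uncountable hs hS (Or.inr h) hcount
  obtain ⟨β, horb, hβ⟩ := exists_finite_orbit hL ham hcount
  have hGc : Countable G := Pool.Agent.H205R3.Horo.countable_group hS
  obtain ⟨e, he⟩ := exists_surjective_nat G
  choose x hx1 hx2 using fun n : ℕ => hβ ((Finset.range (n + 1)).image e) n
  refine ⟨fun y => (β.1 y : ℝ), ⟨x, ?_, fun y => ?_⟩, ?_⟩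
  · have h : ∀ n : ℕ, (n : ℝ) ≤ ((len S (x n)⁻¹ : ℕ) : ℝ) := by
      intro n
      rw [hL.inv]
      exact_mod_cast hx1 n
    exact tendsto_atTop_mono h tendsto_natCast_atTop_atTop
  · obtain ⟨k, rfl⟩ := he y
    refine tendsto_const_nhds.congr' ?_
    filter_upwards [eventually_ge_atTop k] with n hn
    have h3 := hx2 n (e k) (Finset.mem_image_of_mem _ (Finset.mem_range.2 (by omega)))
    rw [← h3]
    change ((bf (len S) (x n) (e k) : ℤ) : ℝ) =
      ((len S ((x n)⁻¹ * e k) : ℕ) : ℝ) - ((len S (x n)⁻¹ : ℕ) : ℝ)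
    have h4 : len S ((x n)⁻¹ * e k) = len S ((e k)⁻¹ * x n) := by
      rw [← hL.inv ((x n)⁻¹ * e k)]
      congr 1
      group
    rw [h4, hL.inv (x n)]
    unfold bf
    push_cast
    ring
  · have hfin : ((fun b : Fn G => fun y : G => ((b.1 y : ℤ) : ℝ)) '' MulAction.orbit G β).Finite :=
      horb.image _
    refine hfin.subset ?_
    rintro _ ⟨g, rfl⟩
    refine ⟨g • β, MulAction.mem_orbit β g, ?_⟩
    funext y
    change (((g • β).1 y : ℤ) : ℝ) = ((β.1 (g⁻¹ * y) : ℤ) : ℝ) - ((β.1 g⁻¹ : ℤ) : ℝ)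
    rw [Pool.Agent.Horo.smul_apply]
    push_cast
    rfl

end Pool.Agent.Results.MP_3614fc_al.VirtuallyAbelian
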